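import Pool.Agent.R166.SZ.Main
import Pool.Agent.R904.CU.KMain
import Pool.Agent.R387.EM.Base

set_option autoImplicit false

/-!
# Étale cohomology of cycle complexes in the weights `n ≤ 0`, formally
-/

open CategoryTheory AlgebraicGeometry
open Pool.Agent.R904.CU Pool.Agent.R904.EL

namespace Pool.Agent.R166.SW

/-- The properties of the groups `H w i X = Hⁱ(X_et, ℤᶜ(-w))`, `w ≥ 0`, of arithmetic schemes which are
used. For a regular scheme `X` of pure dimension `d` one has `H w i X = H^{2d+i}(X_et, ℤ(d+w))`. -/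
structure EtTheory where
  /-- the group `H w i X = Hⁱ(X_et, ℤᶜ(-w))` -/
  H : ℕ → ℤ → Scheme.{0} → Type
  /-- its group structure -/
  grp : ∀ (w : ℕ) (i : ℤ) (X : Scheme.{0}), AddCommGroup (H w i X)
  /-- the groups of the empty scheme vanish -/
  empty : ∀ (w : ℕ) (i : ℤ) (X : Scheme.{0}), IsEmpty X → Subsingleton (H w i X)
  /-- isomorphic schemes have isomorphic groups -/
  iso : ∀ (w : ℕ) (i : ℤ) (X Y : Scheme.{0}), (X ≅ Y) → Nonempty (H w i X ≃+ H w i Y)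
  /-- the localization sequence
  `Hⁱ⁻¹(X) → Hⁱ⁻¹(U) → Hⁱ(Z) → Hⁱ(X) → Hⁱ(U)` of a closed subscheme `Z` with open complement `U` -/
  localization : ∀ (w : ℕ) (X Z U : Scheme.{0}) (f : X ⟶ Spec (.of ℤ)) (i : Z ⟶ X)
    (j : U ⟶ X), SepFinType ℤ X f → IsClosedImmersion i → IsOpenImmersion j →
    Set.range i = (Set.range j)ᶜ →
    ∃ (a : ∀ i, H w i Z →+ H w i X) (b : ∀ i, H w i X →+ H w i U)
      (d : ∀ i, H w (i - 1) U →+ H w i Z),
      (∀ i, Function.Exact (a i) (b i)) ∧ (∀ i, Function.Exact (b (i - 1)) (d i)) ∧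
      (∀ i, Function.Exact (d i) (a i))
  /-- the groups of an affine line: `Hⁱ(𝔸¹_X, ℤᶜ(n)) = H^{i+2}(X, ℤᶜ(n-1))` -/
  line : ∀ (w : ℕ) (i : ℤ) (X : Scheme.{0}) (f : X ⟶ Spec (.of ℤ)), SepFinType ℤ X f →
    Nonempty (H w i 𝔸(Unit; X) ≃+ H (w + 1) (i + 2) X)
  /-- the groups `H^p(X_et, ℤ(n)) = H^p(X, ℚ(n))`, `p < 0`, of a regular scheme are rational vector
  spaces -/
  rational : ∀ (w : ℕ) (i : ℤ) (X : Scheme.{0}) (f : X ⟶ Spec (.of ℤ)), SepFinType ℤ X f →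
    (∀ x : X, IsRegularLocalRing (X.presheaf.stalk x)) →
    ∀ d : ℕ, topologicalKrullDim X = d → i < -2 * (d : ℤ) →
      ∀ m : ℕ, 0 < m → Function.Bijective fun x : H w i X => m • x

attribute [instance] EtTheory.grp

namespace EtTheory

variable (T : EtTheory)

/-- `Hⁱ(X_et, ℤᶜ(-w))` is finitely generated for all arithmetic schemes `X` and all `i ≤ m` -/
def AllFG (w : ℕ) (m : ℤ) : Prop := ∀ (X : Scheme.{0}) (f : X ⟶ Spec (.of ℤ)), SepFinType ℤ X f →
  ∀ i ≤ m, AddGroup.FG (T.H w i X)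

/-- `Hⁱ(X_et, ℤᶜ(-w))` is finitely generated for `i ≤ m` and all complements `X` of finite unions of
hypersurfaces of the form `xᵢ xⱼ = xₖ`, `xᵢ + xⱼ = xₖ`, `xᵢ = 1` in affine spaces over `ℤ` -/
def ArrFG (w : ℕ) (m : ℤ) : Prop := ∀ (σ : Type) [Fintype σ], ∀ a ∈ elemProds ({1} : Set ℤ) σ,
  ∀ i ≤ m, AddGroup.FG (T.H w i (compl a))

theorem glue (w : ℕ) (m : ℤ) : Glue (SepFinType ℤ)
    (fun X _ => ∀ i ≤ m, AddGroup.FG (T.H w i X)) where
  empty Z f hZ i _ := by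
    have h := T.empty w i Z hZ
    exact AddGroup.fg_of_finite
  iso f g e _ h i hi := fg_equiv (T.iso w i _ _ e.symm) (h i hi)
  glue X Z U f i j hf hi hj hr hZ hU k hk := by
    obtain ⟨a, b, d, h1, h2, h3⟩ := T.localization w X Z U f i j hf hi hj hr
    exact fg_exact (a k) (b k) (h1 k) (hZ k hk) (hU k hk)
  sub X Z U f i j hf hi hj hr hX hU k hk := by
    obtain ⟨a, b, d, h1, h2, h3⟩ := T.localization w X Z U f i j hf hi hj hr
    exact fg_exact (d k) (a k) (h3 k) (hU (k - 1) (by omega)) (hX k hk)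

theorem allFG_iff (w : ℕ) (m : ℤ) : T.AllFG w m ↔ T.ArrFG w m :=
  Pool.Agent.R166.SZ.all_iff (P := fun X => ∀ i ≤ m, AddGroup.FG (T.H w i X)) (T.glue w m)

theorem sepFinType_line {X : Scheme.{0}} {f : X ⟶ Spec (.of ℤ)} (hf : SepFinType ℤ X f) :
    SepFinType ℤ 𝔸(Unit; X) ((𝔸(Unit; X) ↘ X) ≫ f) := by
  obtain ⟨h1, h2, h3⟩ := hf
  exact ⟨inferInstance, inferInstance, inferInstance⟩

theorem allFG_succ (w : ℕ) (m : ℤ) (h : T.AllFG w m) : T.AllFG (w + 1) (m + 2) := by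
  intro X f hf i hi
  have h1 := h _ _ (sepFinType_line hf) (i - 2) (by omega)
  have h2 := fg_equiv (T.line w (i - 2) X f hf) h1
  rwa [sub_add_cancel] at h2

theorem allFG_add (w : ℕ) (m : ℤ) (h : T.AllFG w m) (k : ℕ) : T.AllFG (w + k) (m + 2 * k) := by
  induction k with
  | zero =>
    intro X f hf i hi
    refine h X f hf i ?_
    simpa using hi
  | succ k ih =>
    have h1 := T.allFG_succ _ _ ih
    have h2 : m + 2 * ((k + 1 : ℕ) : ℤ) = m + 2 * (k : ℤ) + 2 := by push_cast; ring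
    rw [h2]
    exact h1

theorem vanish {w : ℕ} {i : ℤ} {X : Scheme.{0}} {f : X ⟶ Spec (.of ℤ)} (hf : SepFinType ℤ X f)
    (hX : ∀ x : X, IsRegularLocalRing (X.presheaf.stalk x)) {d : ℕ}
    (hd : topologicalKrullDim X = d) (hi : i < -2 * (d : ℤ)) (h : AddGroup.FG (T.H w i X)) :
    Subsingleton (T.H w i X) := by
  have h1 : Module.Finite ℤ (T.H w i X) := Module.Finite.iff_addGroup_fg.2 h
  exact Pool.Agent.R387.EM.Ab.isZero_of_fg (A := ⟨T.H w i X⟩) (T.rational w i X f hf hX d hd hi) h1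

end EtTheory

end Pool.Agent.R166.SW
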