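import Pool.Agent.R166.SW.Fg

set_option autoImplicit false

/-!
# Adding a variable to the complement of an elementary arrangement
-/

open CategoryTheory AlgebraicGeometry MvPolynomial
open Pool.Agent.R904.CU Pool.Agent.R904.EL

namespace Pool.Agent.R166.SW

section geometry

variable {σ : Type} (a : MvPolynomial σ ℤ)

/-- the polynomial in one variable more -/
noncomputable def up : MvPolynomial (Option σ) ℤ := rename some a

/-- the polynomial times `x - 1`, `x` the new variable -/
noncomputable def upMul : MvPolynomial (Option σ) ℤ := up a * (X none - C 1)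

theorem up_mem (ha : a ∈ elemProds ({1} : Set ℤ) σ) : up a ∈ elemProds ({1} : Set ℤ) (Option σ) := by
  unfold up
  refine Submonoid.closure_induction (motive := fun q _ => rename some q ∈ elemProds ({1} : Set ℤ)
    (Option σ)) ?_ ?_ ?_ ha
  · intro q hq
    exact Submonoid.subset_closure (isElem_rename some hq)
  · rw [map_one]
    exact Submonoid.one_mem _
  · intro p q _ _ hp hq
    rw [map_mul]
    exact Submonoid.mul_mem _ hp hq

theorem upMul_mem (ha : a ∈ elemProds ({1} : Set ℤ) σ) :
    upMul a ∈ elemProds ({1} : Set ℤ) (Option σ) := by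
  refine Submonoid.mul_mem _ (up_mem a ha) (Submonoid.subset_closure ?_)
  exact Or.inr (Or.inr ⟨none, 1, rfl, rfl⟩)

/-- the restriction to `x = 1` -/
noncomputable def ev : MvPolynomial (Option σ) ℤ →ₐ[ℤ] MvPolynomial σ ℤ :=
  aeval fun o => o.elim 1 X

theorem ev_none : ev (X none : MvPolynomial (Option σ) ℤ) = 1 := by
  unfold ev
  rw [aeval_X]
  rfl

theorem ev_some (i : σ) : ev (X (some i) : MvPolynomial (Option σ) ℤ) = X i := by
  unfold ev
  rw [aeval_X]
  rfl

theorem ev_rename (p : MvPolynomial σ ℤ) : ev (rename some p) = p := by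
  unfold ev
  rw [aeval_rename]
  have h1 : ((fun o : Option σ => o.elim (1 : MvPolynomial σ ℤ) X) ∘ some) = X := by
    funext i
    rfl
  rw [h1, aeval_X_left_apply]

/-- the ring homomorphism -/
noncomputable def locHom : Localization.Away (up a) →+* Localization.Away a :=
  IsLocalization.Away.lift (up a) (g := (algebraMap (MvPolynomial σ ℤ) (Localization.Away a)).comp
    (ev : MvPolynomial (Option σ) ℤ →ₐ[ℤ] MvPolynomial σ ℤ).toRingHom) (by
      change IsUnit (algebraMap (MvPolynomial σ ℤ) (Localization.Away a) (ev (rename some a)))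
      rw [ev_rename]
      exact IsLocalization.Away.algebraMap_isUnit a)

theorem locHom_comp : (locHom a).comp (algebraMap (MvPolynomial (Option σ) ℤ)
    (Localization.Away (up a))) = (algebraMap (MvPolynomial σ ℤ) (Localization.Away a)).comp
      (ev : MvPolynomial (Option σ) ℤ →ₐ[ℤ] MvPolynomial σ ℤ).toRingHom :=
  IsLocalization.Away.lift_comp _ _

theorem locHom_apply (p : MvPolynomial (Option σ) ℤ) :
    locHom a (algebraMap _ _ p) = algebraMap _ _ (ev p) :=
  RingHom.congr_fun (locHom_comp a) p

theorem locHom_surjective : Function.Surjective (locHom a) := by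
  intro y
  obtain ⟨n, p, hp⟩ := IsLocalization.Away.surj a y
  have hu : IsUnit (algebraMap (MvPolynomial (Option σ) ℤ) (Localization.Away (up a)) (up a)) :=
    IsLocalization.Away.algebraMap_isUnit (up a)
  obtain ⟨v, hv⟩ := hu
  refine ⟨algebraMap _ _ (rename some p) * ((v⁻¹ : (Localization.Away (up a))ˣ) :
    Localization.Away (up a)) ^ n, ?_⟩
  have h1 : locHom a (v : Localization.Away (up a)) = algebraMap _ _ a := by
    rw [hv, locHom_apply]
    unfold up
    rw [ev_rename]
  have h2 : locHom a ((v⁻¹ : (Localization.Away (up a))ˣ) : Localization.Away (up a)) *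
      algebraMap _ _ a = 1 := by
    rw [← h1, ← map_mul, Units.inv_mul, map_one]
  rw [map_mul, map_pow, locHom_apply, ev_rename, ← hp, mul_assoc, ← mul_pow, mul_comm (algebraMap _ _ a),
    h2, one_pow, mul_one]

/-- the open immersion in affine space -/
noncomputable abbrev toSpace {τ : Type} (b : MvPolynomial τ ℤ) :
    compl b ⟶ Spec (.of (MvPolynomial τ ℤ)) :=
  Spec.map (CommRingCat.ofHom (algebraMap (MvPolynomial τ ℤ) (Localization.Away b)))

theorem isOpenImmersion_toSpace {τ : Type} (b : MvPolynomial τ ℤ) :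
    IsOpenImmersion (toSpace b) := IsOpenImmersion.of_isLocalization b

theorem mem_range_toSpace {τ : Type} (b : MvPolynomial τ ℤ) (x : Spec (.of (MvPolynomial τ ℤ))) :
    x ∈ Set.range (toSpace b) ↔ b ∉ x.asIdeal := by
  have h1 := PrimeSpectrum.localization_away_comap_range (Localization.Away b) b
  have h2 : Set.range (toSpace b) = {x : PrimeSpectrum _ | b ∉ x.asIdeal} := h1
  rw [h2]
  rfl

/-- the closed subscheme `x = 1` -/
noncomputable def closedI : compl a ⟶ compl (up a) := Spec.map (CommRingCat.ofHom (locHom a))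

theorem isClosedImmersion_closedI : IsClosedImmersion (closedI a) :=
  IsClosedImmersion.spec_of_surjective _ (locHom_surjective a)

theorem closedI_comp : closedI a ≫ toSpace (up a) =
    toSpace a ≫ Spec.map (CommRingCat.ofHom (ev : MvPolynomial (Option σ) ℤ →ₐ[ℤ]
      MvPolynomial σ ℤ).toRingHom) := by
  unfold closedI toSpace
  rw [← Spec.map_comp, ← Spec.map_comp, ← CommRingCat.ofHom_comp, ← CommRingCat.ofHom_comp,
    locHom_comp]

theorem range_le : Set.range (toSpace (upMul a)) ⊆ Set.range (toSpace (up a)) := by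
  intro x hx
  rw [mem_range_toSpace] at hx ⊢
  intro h1
  exact hx (x.asIdeal.mul_mem_right _ h1)

/-- the open subscheme `x ≠ 1` -/
noncomputable def openJ : compl (upMul a) ⟶ compl (up a) :=
  have := isOpenImmersion_toSpace (up a)
  IsOpenImmersion.lift (toSpace (up a)) (toSpace (upMul a)) (range_le a)

theorem openJ_comp : openJ a ≫ toSpace (up a) = toSpace (upMul a) := by
  have := isOpenImmersion_toSpace (up a)
  exact IsOpenImmersion.lift_fac _ _ _

theorem isOpenImmersion_openJ : IsOpenImmersion (openJ a) := by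
  have := isOpenImmersion_toSpace (up a)
  have : IsOpenImmersion (openJ a ≫ toSpace (up a)) := by
    rw [openJ_comp]
    exact isOpenImmersion_toSpace _
  exact IsOpenImmersion.of_comp (openJ a) (toSpace (up a))

theorem range_eq : Set.range (closedI a) = (Set.range (openJ a))ᶜ := by
  have := isOpenImmersion_toSpace (up a)
  have hinj : Function.Injective (toSpace (up a)) :=
    (toSpace (up a)).isOpenEmbedding.injective
  have hI : ∀ z, toSpace (up a) (closedI a z) = Spec.map (CommRingCat.ofHom
      (ev : MvPolynomial (Option σ) ℤ →ₐ[ℤ] MvPolynomial σ ℤ).toRingHom) (toSpace a z) := by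
    intro z
    rw [← Scheme.Hom.comp_apply, closedI_comp, Scheme.Hom.comp_apply]
  have hJ : ∀ y, toSpace (up a) (openJ a y) = toSpace (upMul a) y := by
    intro y
    rw [← Scheme.Hom.comp_apply, openJ_comp]
  apply Set.Subset.antisymm
  · rintro _ ⟨z, rfl⟩ ⟨y, hy⟩
    have h1 : toSpace (up a) (closedI a z) ∈ Set.range (toSpace (upMul a)) := by
      rw [← hy, hJ]
      exact ⟨y, rfl⟩
    rw [mem_range_toSpace, hI] at h1
    refine h1 ?_
    change ev (upMul a) ∈ (toSpace a z).asIdeal
    have h2 : ev (upMul a) = 0 := by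
      unfold upMul
      rw [map_mul, map_sub, ev_none, C_1, map_one, sub_self, mul_zero]
    rw [h2]
    exact zero_mem _
  · intro x hx
    have h1 : toSpace (up a) x ∈ Set.range (toSpace (up a)) := ⟨x, rfl⟩
    rw [mem_range_toSpace] at h1
    have h2 : toSpace (up a) x ∉ Set.range (toSpace (upMul a)) := by
      rintro ⟨y, hy⟩
      refine hx ⟨y, hinj ?_⟩
      rw [hJ, hy]
    rw [mem_range_toSpace, not_not] at h2
    set q := toSpace (up a) x with hq
    have h3 : X none - C 1 ∈ q.asIdeal := by
      rcases q.2.mem_or_mem h2 with h | h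
      · exact (h1 h).elim
      · exact h
    -- the point comes from the hyperplane
    have hsurj : Function.Surjective (ev : MvPolynomial (Option σ) ℤ →ₐ[ℤ]
        MvPolynomial σ ℤ).toRingHom := fun p => ⟨rename some p, ev_rename p⟩
    have h4 : q ∈ Set.range (PrimeSpectrum.comap (ev : MvPolynomial (Option σ) ℤ →ₐ[ℤ]
        MvPolynomial σ ℤ).toRingHom) := by
      rw [range_comap_of_surjective _ _ hsurj]
      intro p hp
      have hp0 : ev p = 0 := hp
      have h5 := sub_rename_mem (R := ℤ) 1 q.asIdeal (by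
        rw [map_one]
        rwa [C_1] at h3) ev ev_none ev_some p
      rw [hp0, map_zero, sub_zero] at h5
      exact h5
    obtain ⟨q', hq'⟩ := h4
    have h6 : q' ∈ Set.range (toSpace a) := by
      refine (mem_range_toSpace a q').2 ?_
      intro h7
      apply h1
      rw [← hq']
      change ev (up a) ∈ q'.asIdeal
      unfold up
      rwa [ev_rename]
    obtain ⟨z, hz⟩ := h6
    refine ⟨z, hinj ?_⟩
    rw [hI, hz]
    exact hq'

end geometry

namespace EtTheory

variable (T : EtTheory)

theorem fg_step {σ : Type} [Fintype σ] (a : MvPolynomial σ ℤ) (w : ℕ) (i : ℤ)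
    (h1 : AddGroup.FG (T.H w (i - 1) (compl (upMul a)))) (h2 : AddGroup.FG (T.H w i (compl (up a)))) :
    AddGroup.FG (T.H w i (compl a)) := by
  have hf : SepFinType ℤ (compl (up a)) (complHom (up a)) :=
    (cls_sepFinType (R := ℤ)).affine _ (by
      have h3 : Algebra.FiniteType (MvPolynomial (Option σ) ℤ) (Localization.Away (up a)) :=
        IsLocalization.finiteType_of_monoid_fg (Submonoid.powers (up a)) _
      exact Algebra.FiniteType.trans (S := MvPolynomial (Option σ) ℤ) inferInstance h3)
  obtain ⟨α, β, δ, e1, e2, e3⟩ := T.localization w (compl (up a)) (compl a) (compl (upMul a))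
    (complHom (up a)) (closedI a) (openJ a) hf (isClosedImmersion_closedI a)
    (isOpenImmersion_openJ a) (range_eq a)
  exact fg_exact (δ i) (α i) (e3 i) h1 h2

/-- `k` steps -/
theorem fg_steps (w : ℕ) (k : ℕ) : ∀ {σ : Type} [Fintype σ] (a : MvPolynomial σ ℤ),
    a ∈ elemProds ({1} : Set ℤ) σ → ∀ i : ℤ,
    (∀ (τ : Type) [Fintype τ], Fintype.card τ = Fintype.card σ + k →
      ∀ b ∈ elemProds ({1} : Set ℤ) τ, ∀ j : ℤ, i - k ≤ j → j ≤ i →
        AddGroup.FG (T.H w j (compl b))) → AddGroup.FG (T.H w i (compl a)) := by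
  induction k with
  | zero =>
    intro σ _ a ha i h
    exact h σ (by simp) a ha i (by simp) le_rfl
  | succ k ih =>
    intro σ _ a ha i h
    have hc : Fintype.card (Option σ) = Fintype.card σ + 1 := Fintype.card_option
    refine T.fg_step a w i ?_ ?_
    · refine ih (upMul a) (upMul_mem a ha) (i - 1) fun τ _ hτ b hb j h1 h2 => ?_
      refine h τ (by omega) b hb j ?_ (by omega)
      push_cast
      linarith
    · refine ih (up a) (up_mem a ha) i fun τ _ hτ b hb j h1 h2 => ?_
      refine h τ (by omega) b hb j ?_ h2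
      push_cast
      linarith

/-- For the complements `U` of elementary arrangements the groups `Hⁱ(U_et, ℤᶜ(-w))` are finitely
generated for `-d - φ(d) ≤ i ≤ m`, where `d = N + 1` is the dimension of the affine space over `ℤ`
in which `U` is open. In the notation of regular schemes: `H^p(U_et, ℤ(d+w))` is finitely generated
for `d - φ(d) ≤ p ≤ 2d + m`. -/
def UpperFG (φ : ℕ → ℕ) (w : ℕ) (m : ℤ) : Prop := ∀ (σ : Type) [Fintype σ],
  ∀ a ∈ elemProds ({1} : Set ℤ) σ, ∀ i : ℤ,
    -((Fintype.card σ + 1 : ℕ) : ℤ) - φ (Fintype.card σ + 1) ≤ i → i ≤ m →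
      AddGroup.FG (T.H w i (compl a))

theorem exists_large {φ : ℕ → ℕ} (hφ : ∀ B, ∃ d, B ≤ φ d) (B N : ℕ) : ∃ d, N ≤ d ∧ B ≤ φ d := by
  obtain ⟨d, hd⟩ := hφ (B + ∑ e ∈ Finset.range N, φ e + 1)
  refine ⟨d, ?_, by omega⟩
  by_contra hcon
  have h1 : φ d ≤ ∑ e ∈ Finset.range N, φ e :=
    Finset.single_le_sum (f := φ) (fun e _ => Nat.zero_le _) (Finset.mem_range.2 (not_le.1 hcon))
  omega

theorem upper_iff {φ : ℕ → ℕ} (hφ : ∀ B, ∃ d, B ≤ φ d) (w : ℕ) (m : ℤ) :
    T.UpperFG φ w m ↔ T.AllFG w m := by
  rw [T.allFG_iff]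
  refine ⟨fun h σ _ a ha i hi => ?_, fun h σ _ a ha i _ hi => h σ a ha i hi⟩
  obtain ⟨d, hd1, hd2⟩ := exists_large hφ (Int.toNat (-i)) (Fintype.card σ + 1)
  refine T.fg_steps w (d - (Fintype.card σ + 1)) a ha i fun τ _ hτ b hb j h1 h2 => ?_
  have hτ' : Fintype.card τ + 1 = d := by omega
  refine h τ b hb j ?_ (h2.trans hi)
  rw [hτ']
  have h3 : (-i : ℤ) ≤ Int.toNat (-i) := Int.self_le_toNat _
  have h4 : ((d - (Fintype.card σ + 1) : ℕ) : ℤ) = (d : ℤ) - (Fintype.card σ + 1) := by
    rw [Nat.cast_sub hd1]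
    push_cast
    ring
  rw [h4] at h1
  have h5 : ((Int.toNat (-i) : ℕ) : ℤ) ≤ φ d := by exact_mod_cast hd2
  have h6 : (0 : ℤ) ≤ (Fintype.card σ : ℤ) := by positivity
  linarith

end EtTheory

end Pool.Agent.R166.SW
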